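import Pool.Agent.Helper91.SY.Goals

/-!
# Packet SY-RI: the moment map exists
-/

set_option autoImplicit false

open Set Filter Topology
open scoped ContDiff

namespace Pool.Agent.Helper50.SY

open Pool.Agent.Helper91.SY

theorem chain {E F : Type} [NormedAddCommGroup E] [NormedSpace ℝ E] [NormedAddCommGroup F]
    [NormedSpace ℝ F] (f : E → F) (f' : E →L[ℝ] F) (g : ℝ → E) (g' : E) (t : ℝ) (v : F)
    (hf : HasFDerivAt f f' (g t)) (hg : HasDerivAt g g' t) (hv : f' g' = v) :
    HasDerivAt (fun s => f (g s)) v t := by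
  rw [← hv]
  exact hf.comp_hasDerivAt t hg

theorem ri_ (hPC : StmtPC) : StmtRI := by
  intro E _ _ _ B a b p q hB hP hPull
  have hJ : ∀ x, Jr a b p q x = p x • b - q x • a := by
    intro x
    simp [Jr]
  have hRot : ∀ θ x, Rot a b p q θ x
      = x + (Real.cos θ - 1) • (p x • a + q x • b) + Real.sin θ • (p x • b - q x • a) := by
    intro θ x
    simp [Rot]
  have hR0 : ∀ x, Rot a b p q 0 x = x := by
    intro x
    rw [hRot]
    simp
  have hRd : ∀ x θ, HasDerivAt (fun θ => Rot a b p q θ x) (Jr a b p q (Rot a b p q θ x)) θ := by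
    intro x θ
    have h1 : HasDerivAt (fun θ : ℝ => x + (Real.cos θ - 1) • (p x • a + q x • b)
        + Real.sin θ • (p x • b - q x • a))
        ((-Real.sin θ) • (p x • a + q x • b) + Real.cos θ • (p x • b - q x • a)) θ :=
      ((((Real.hasDerivAt_cos θ).sub_const 1).smul_const (p x • a + q x • b)).const_add x).add
        ((Real.hasDerivAt_sin θ).smul_const (p x • b - q x • a))
    have h2 : (fun θ => Rot a b p q θ x) = fun θ : ℝ => x + (Real.cos θ - 1) • (p x • a + q x • b)
        + Real.sin θ • (p x • b - q x • a) := funext (fun θ => hRot θ x)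
    rw [h2]
    convert h1 using 1
    rw [hJ, hRot]
    simp only [map_add, map_sub, map_smul, hP.pa, hP.pb, hP.qa, hP.qb, smul_eq_mul, mul_one,
      mul_zero, add_zero, zero_add, sub_zero, zero_sub]
    module
  have hBd : ∀ x, HasFDerivAt B (fderiv ℝ B x) x := fun x =>
    (hB.smooth.differentiable (by simp) x).hasFDerivAt
  have hanti : ∀ x u v, B x u v = -B x v u := by
    intro x u v
    have h1 := hB.alt x (u + v)
    simp only [map_add, _root_.add_apply] at h1
    rw [hB.alt x u, hB.alt x v] at h1
    linarith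
  have hinv : ∀ x u v, fderiv ℝ B x (Jr a b p q x) u v + B x (Jr a b p q u) v
      + B x u (Jr a b p q v) = 0 := by
    intro x u v
    have h1 : HasDerivAt (fun θ => B (Rot a b p q θ x)) (fderiv ℝ B x (Jr a b p q x)) 0 := by
      have h3 := hBd (Rot a b p q 0 x)
      refine chain B (fderiv ℝ B (Rot a b p q 0 x)) (fun θ => Rot a b p q θ x) _ 0 _ h3 (hRd x 0) ?_
      rw [hR0]
    have h5 : HasDerivAt (fun θ => Rot a b p q θ u) (Jr a b p q u) 0 := by
      have := hRd u 0
      rwa [hR0] at this
    have h6 : HasDerivAt (fun θ => Rot a b p q θ v) (Jr a b p q v) 0 := by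
      have := hRd v 0
      rwa [hR0] at this
    have h7 := (h1.clm_apply h5).clm_apply h6
    have h8 : (fun θ => B (Rot a b p q θ x) (Rot a b p q θ u) (Rot a b p q θ v))
        = fun _ => B x u v := by
      funext θ
      have h9 := hPull θ x u v
      rw [ContinuousLinearMap.fderiv] at h9
      exact h9
    have h10 : HasDerivAt (fun θ => B (Rot a b p q θ x) (Rot a b p q θ u) (Rot a b p q θ v)) 0 0 := by
      rw [h8]
      exact hasDerivAt_const _ _
    have h11 := h7.unique h10
    simp only [hR0, _root_.add_apply] at h11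
    linarith
  obtain ⟨H0, hH0, hH0d⟩ := hPC E (fun x => -(B x (Jr a b p q x)))
    (hB.smooth.clm_apply (Jr a b p q).contDiff).neg (by
      intro x u v
      have h1 : HasFDerivAt (fun x => -(B x (Jr a b p q x)))
          (-((B x).comp (Jr a b p q) + (fderiv ℝ B x).flip (Jr a b p q x))) x :=
        ((hBd x).clm_apply (Jr a b p q).hasFDerivAt).neg
      rw [h1.fderiv]
      have h2 := hB.closed x (Jr a b p q x) u v
      have h3 := hinv x u v
      have h4 := hanti x u (Jr a b p q v)
      simp only [_root_.neg_apply, _root_.add_apply,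
        ContinuousLinearMap.comp_apply, ContinuousLinearMap.flip_apply]
      linarith)
  have hdiff : Differentiable ℝ H0 := hH0.differentiable (by simp)
  have hfd : ∀ x, fderiv ℝ (fun x => H0 x - H0 0) x = -(B x (Jr a b p q x)) := by
    intro x
    rw [fderiv_sub_const, hH0d]
  have hHd : ∀ x, HasFDerivAt (fun x => H0 x - H0 0) (-(B x (Jr a b p q x))) x := by
    intro x
    rw [← hfd x]
    exact ((hdiff x).sub_const _).hasFDerivAt
  refine ⟨fun x => H0 x - H0 0, hH0.sub contDiff_const, ?_, ?_, ?_⟩
  · intro x v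
    rw [hfd x]
    rfl
  · intro θ x
    have h1 : ∀ θ, HasDerivAt (fun θ => (fun x => H0 x - H0 0) (Rot a b p q θ x)) 0 θ := by
      intro θ
      refine chain (fun x => H0 x - H0 0) _ (fun θ => Rot a b p q θ x) _ θ 0
        (hHd (Rot a b p q θ x)) (hRd x θ) ?_
      show -(B (Rot a b p q θ x) (Jr a b p q (Rot a b p q θ x))
        (Jr a b p q (Rot a b p q θ x))) = 0
      rw [hB.alt, neg_zero]
    have h3 := is_const_of_deriv_eq_zero (fun θ => (h1 θ).differentiableAt)
      (fun θ => (h1 θ).deriv) θ 0
    simp only [hR0] at h3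
    exact h3
  · intro x hp hq
    have h1 : ∀ t : ℝ, HasDerivAt (fun t : ℝ => (fun x => H0 x - H0 0) (t • x)) 0 t := by
      intro t
      have h2 : HasDerivAt (fun t : ℝ => t • x) x t := by
        have := (hasDerivAt_id t).smul_const x
        rwa [one_smul] at this
      refine chain (fun x => H0 x - H0 0) _ (fun t : ℝ => t • x) _ t 0 (hHd (t • x)) h2 ?_
      show -(B (t • x) (Jr a b p q (t • x)) x) = 0
      rw [hJ, map_smul, map_smul, hp, hq]
      simp
    have h3 := is_const_of_deriv_eq_zero (fun t => (h1 t).differentiableAt)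
      (fun t => (h1 t).deriv) 1 0
    simp only [one_smul, zero_smul, sub_self] at h3
    exact h3

end Pool.Agent.Helper50.SY
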